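import Mathlib

set_option autoImplicit false

/-! # Jordan blocks of a given size -/

namespace Pool.Agent.Helper17.JB

open Module

variable {E V : Type} [Field E] [AddCommGroup V] [Module E V]

/-- The map `F - c`. -/
def shift (F : End E V) (c : E) (v : V) : V := F v - c • v

/-- The endomorphism `F` has a Jordan block of size exactly `m` for the eigenvalue `c`: for some
vector `w` the vectors `(F - c) ^ i w`, `i < m`, span a direct summand, with a complement which is
stable under `F`, and `(F - c) ^ m w = 0`, `(F - c) ^ (m - 1) w ≠ 0`. -/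
def HasBlock (F : End E V) (c : E) (m : ℕ) : Prop :=
  ∃ (w : V) (W : Submodule E V), (shift F c)^[m] w = 0 ∧ (shift F c)^[m - 1] w ≠ 0 ∧
    (∀ u ∈ W, F u ∈ W) ∧ IsCompl (Submodule.span E {u | ∃ i < m, (shift F c)^[i] w = u}) W

theorem shift_iterate (F : End E V) (c : E) (n : ℕ) (v : V) :
    (shift F c)^[n] v = ((F - c • 1) ^ n) v := by
  rw [End.pow_apply]
  have h : shift F c = ⇑(F - c • (1 : End E V)) := by
    funext v
    rw [LinearMap.sub_apply, LinearMap.smul_apply, End.one_apply]
    rfl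
  rw [h]

theorem hasBlock_def (F : End E V) (c : E) (m : ℕ) : HasBlock F c m ↔
    ∃ (w : V) (W : Submodule E V), ((F - c • 1) ^ m) w = 0 ∧ ((F - c • 1) ^ (m - 1)) w ≠ 0 ∧
      (∀ u ∈ W, F u ∈ W) ∧
      IsCompl (Submodule.span E (Set.range fun i : Fin m => ((F - c • 1) ^ (i : ℕ)) w)) W := by
  unfold HasBlock
  refine exists_congr fun w => exists_congr fun W => ?_
  have h : {u | ∃ i < m, (shift F c)^[i] w = u} =
      Set.range fun i : Fin m => ((F - c • 1) ^ (i : ℕ)) w := by
    ext u
    constructor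
    · rintro ⟨i, hi, rfl⟩
      exact ⟨⟨i, hi⟩, (shift_iterate F c i w).symm⟩
    · rintro ⟨i, rfl⟩
      exact ⟨i, i.2, shift_iterate F c i w⟩
  rw [h, shift_iterate, shift_iterate]

/-- The criterion: a vector and a functional. -/
def Crit (F : End E V) (c : E) (m : ℕ) : Prop :=
  ∃ (v : V) (φ : V →ₗ[E] E), ((F - c • 1) ^ m) v = 0 ∧ (∀ u, φ (((F - c • 1) ^ m) u) = 0) ∧
    φ (((F - c • 1) ^ (m - 1)) v) ≠ 0

theorem crit_of_hasBlock {F : End E V} {c : E} {m : ℕ} (hm : 1 ≤ m) (h : HasBlock F c m) :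
    Crit F c m := by
  rw [hasBlock_def] at h
  obtain ⟨w, W, h1, h2, h3, h4⟩ := h
  have hN : ∀ u ∈ W, (F - c • 1) u ∈ W := fun u hu => by
    rw [LinearMap.sub_apply, LinearMap.smul_apply, End.one_apply]
    exact W.sub_mem (h3 u hu) (W.smul_mem c hu)
  have hNk : ∀ k : ℕ, ∀ u ∈ W, ((F - c • 1) ^ k) u ∈ W := by
    intro k
    induction k with
    | zero => exact fun u hu => hu
    | succ k ih =>
      intro u hu
      rw [pow_succ, End.mul_apply]
      exact ih _ (hN u hu)
  have hnot : ((F - c • 1) ^ (m - 1)) w ∉ W := by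
    intro hW
    apply h2
    have h5 : ((F - c • 1) ^ (m - 1)) w ∈
        Submodule.span E (Set.range fun i : Fin m => ((F - c • 1) ^ (i : ℕ)) w) :=
      Submodule.subset_span ⟨⟨m - 1, by omega⟩, rfl⟩
    exact (Submodule.disjoint_def.1 h4.disjoint) _ h5 hW
  obtain ⟨φ, hφ1, hφ2⟩ := Submodule.exists_le_ker_of_notMem hnot
  refine ⟨w, φ, h1, fun u => ?_, hφ1⟩
  have h6 : u ∈ Submodule.span E (Set.range fun i : Fin m => ((F - c • 1) ^ (i : ℕ)) w) ⊔ W := by
    rw [h4.sup_eq_top]
    trivial
  obtain ⟨a, ha, b, hb, rfl⟩ := Submodule.mem_sup.1 h6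
  have h7 : ((F - c • 1) ^ m) a = 0 := by
    clear h6
    induction ha using Submodule.span_induction with
    | mem x hx =>
      obtain ⟨i, rfl⟩ := hx
      change ((F - c • 1) ^ m) (((F - c • 1) ^ (i : ℕ)) w) = 0
      rw [← End.mul_apply, ← pow_add, add_comm, pow_add, End.mul_apply, h1, map_zero]
    | zero => exact map_zero _
    | add x y _ _ hx hy =>
      rw [map_add, hx, hy, add_zero]
    | smul r x _ hx =>
      rw [map_smul, hx, smul_zero]
  rw [map_add, h7, zero_add]
  exact hφ2 (hNk m b hb)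

theorem hasBlock_of_crit {F : End E V} {c : E} {m : ℕ} (hm : 1 ≤ m) (h : Crit F c m) :
    HasBlock F c m := by
  rw [hasBlock_def]
  obtain ⟨v, φ, h1, h2, h3⟩ := h
  set N := F - c • (1 : End E V) with hN
  -- the maps
  let ι : (Fin m → E) →ₗ[E] V :=
    { toFun := fun a => ∑ i, a i • (N ^ (i : ℕ)) v
      map_add' := fun a b => by simp only [Pi.add_apply, add_smul, Finset.sum_add_distrib]
      map_smul' := fun r a => by
        simp only [Pi.smul_apply, smul_eq_mul, mul_smul, Finset.smul_sum, RingHom.id_apply] }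
  let Φ : V →ₗ[E] (Fin m → E) := LinearMap.pi fun j => φ ∘ₗ (N ^ (j : ℕ))
  have hιd : ∀ a, ι a = ∑ i, a i • (N ^ (i : ℕ)) v := fun a => rfl
  have hΦd : ∀ u j, Φ u j = φ ((N ^ (j : ℕ)) u) := fun u j => rfl
  have hbig : ∀ k, m ≤ k → (N ^ k) v = 0 := by
    intro k hk
    obtain ⟨l, rfl⟩ := Nat.exists_eq_add_of_le hk
    rw [add_comm, pow_add, End.mul_apply, h1, map_zero]
  have hinj : Function.Injective (Φ ∘ₗ ι) := by
    rw [← LinearMap.ker_eq_bot, LinearMap.ker_eq_bot']
    intro a ha
    have key : ∀ n : ℕ, ∀ i : Fin m, (i : ℕ) = n → a i = 0 := by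
      intro n
      induction n using Nat.strong_induction_on with
      | _ n ih =>
        intro i hi
        have h4 := congrFun ha ⟨m - 1 - n, by omega⟩
        rw [LinearMap.comp_apply, hΦd, hιd, map_sum, map_sum, Finset.sum_eq_single i] at h4
        · rw [map_smul, map_smul, smul_eq_mul, ← End.mul_apply, ← pow_add] at h4
          have h5 : m - 1 - n + (i : ℕ) = m - 1 := by omega
          rw [h5] at h4
          exact (mul_eq_zero.1 h4).resolve_right h3
        · intro j _ hj
          rw [map_smul, map_smul, ← End.mul_apply, ← pow_add]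
          rcases lt_or_gt_of_ne (fun h => hj (Fin.ext h) : (j : ℕ) ≠ (i : ℕ)) with h5 | h5
          · rw [ih j (by omega) j rfl, zero_smul]
          · rw [hbig _ (by simp only; omega), map_zero, smul_zero]
        · intro h5
          exact absurd (Finset.mem_univ i) h5
    funext i
    exact key i i rfl
  have hsurj : Function.Surjective (Φ ∘ₗ ι) := LinearMap.injective_iff_surjective.1 hinj
  have hrange : LinearMap.range ι =
      Submodule.span E (Set.range fun i : Fin m => (N ^ (i : ℕ)) v) := by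
    apply le_antisymm
    · rintro _ ⟨a, rfl⟩
      rw [hιd]
      exact Submodule.sum_mem _ fun i _ => Submodule.smul_mem _ _
        (Submodule.subset_span ⟨i, rfl⟩)
    · rw [Submodule.span_le]
      rintro _ ⟨i, rfl⟩
      refine ⟨Pi.single i 1, ?_⟩
      rw [hιd, Finset.sum_eq_single i]
      · rw [Pi.single_eq_same, one_smul]
      · intro j _ hj
        rw [Pi.single_eq_of_ne hj, zero_smul]
      · intro h5
        exact absurd (Finset.mem_univ i) h5
  refine ⟨v, LinearMap.ker Φ, h1, fun h => h3 (by rw [h, map_zero]), fun u hu => ?_, ?_⟩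
  · have h4 : ∀ j : ℕ, j < m → φ ((N ^ j) u) = 0 := fun j hj =>
      congrFun (LinearMap.mem_ker.1 hu) ⟨j, hj⟩
    rw [LinearMap.mem_ker]
    funext j
    rw [hΦd]
    have h5 : F u = N u + c • u := by
      rw [hN, LinearMap.sub_apply, LinearMap.smul_apply, End.one_apply, sub_add_cancel]
    rw [h5, map_add, map_add, map_smul, map_smul, h4 j j.2, smul_zero, add_zero,
      ← End.mul_apply, ← pow_succ, Pi.zero_apply]
    rcases Nat.lt_or_ge ((j : ℕ) + 1) m with h6 | h6
    · exact h4 _ h6
    · have h7 : (j : ℕ) + 1 = m := by omega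
      rw [h7]
      exact h2 u
  · rw [← hrange]
    constructor
    · rw [Submodule.disjoint_def]
      rintro _ ⟨a, rfl⟩ h4
      have h5 : (Φ ∘ₗ ι) a = 0 := h4
      have h6 : a = 0 := hinj (by rw [h5, map_zero])
      rw [h6, map_zero]
    · rw [codisjoint_iff, eq_top_iff]
      intro u _
      obtain ⟨a, ha⟩ := hsurj (Φ u)
      refine Submodule.mem_sup.2 ⟨ι a, ⟨a, rfl⟩, u - ι a, ?_, by abel⟩
      rw [LinearMap.mem_ker, map_sub, ← ha, LinearMap.comp_apply, sub_self]

theorem hasBlock_iff {F : End E V} {c : E} {m : ℕ} (hm : 1 ≤ m) : HasBlock F c m ↔ Crit F c m :=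
  ⟨crit_of_hasBlock hm, hasBlock_of_crit hm⟩

/-- transfer to an overspace -/
theorem Crit.transfer {W : Type} [AddCommGroup W] [Module E W] {F : End E V} {G : End E W} {c : E}
    {m : ℕ} (h : Crit F c m) (ι : V →ₗ[E] W) (π : W →ₗ[E] V) (hπ : ∀ v, π (ι v) = v)
    (hι : ∀ v, G (ι v) = ι (F v)) (hG : ∀ w, π (G w) = F (π w)) : Crit G c m := by
  obtain ⟨v, φ, h1, h2, h3⟩ := h
  have h4 : ∀ k : ℕ, ∀ v, ((G - c • 1) ^ k) (ι v) = ι (((F - c • 1) ^ k) v) := by
    intro k
    induction k with
    | zero => exact fun v => rfl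
    | succ k ih =>
      intro v
      rw [pow_succ, pow_succ, End.mul_apply, End.mul_apply, ← ih]
      congr 1
      rw [LinearMap.sub_apply, LinearMap.smul_apply, End.one_apply, hι, LinearMap.sub_apply,
        LinearMap.smul_apply, End.one_apply, map_sub, map_smul]
  have h5 : ∀ k : ℕ, ∀ w, π (((G - c • 1) ^ k) w) = ((F - c • 1) ^ k) (π w) := by
    intro k
    induction k with
    | zero => exact fun v => rfl
    | succ k ih =>
      intro v
      rw [pow_succ, pow_succ, End.mul_apply, End.mul_apply, ih]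
      congr 1
      rw [LinearMap.sub_apply, LinearMap.smul_apply, End.one_apply, map_sub, hG,
        LinearMap.sub_apply, LinearMap.smul_apply, End.one_apply, map_smul]
  refine ⟨ι v, φ ∘ₗ π, by rw [h4, h1, map_zero], fun u => ?_, ?_⟩
  · rw [LinearMap.comp_apply, h5]
    exact h2 _
  · rw [LinearMap.comp_apply, h5, hπ]
    exact h3

section semisimple

open Polynomial

/-- An endomorphism which is not semisimple has a Jordan block of size at least two. -/
theorem exists_block [IsAlgClosed E] [CharZero E] [FiniteDimensional E V] (F : End E V)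
    (h : ¬ F.IsSemisimple) : ∃ (c : E) (k : ℕ), 2 ≤ k ∧ Crit F c k := by
  classical
  have hint : IsIntegral E F := Algebra.IsIntegral.isIntegral F
  have hne : minpoly E F ≠ 0 := minpoly.ne_zero hint
  have h1 : ¬ Squarefree (minpoly E F) := fun hs =>
    h (End.isSemisimple_of_squarefree_aeval_eq_zero hs (minpoly.aeval E F))
  have h2 : ∃ c, 2 ≤ (minpoly E F).rootMultiplicity c := by
    by_contra hcon
    push Not at hcon
    apply h1
    have h3 : (minpoly E F).roots.Nodup := by
      rw [Multiset.nodup_iff_count_le_one]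
      intro c
      rw [count_roots]
      have := hcon c
      omega
    exact ((nodup_roots_iff_of_splits hne (IsAlgClosed.splits _)).1 h3).squarefree
  obtain ⟨c, hc⟩ := h2
  obtain ⟨k, hk⟩ : ∃ k, (minpoly E F).rootMultiplicity c = k := ⟨_, rfl⟩
  obtain ⟨Q, hQ, hnd⟩ := exists_eq_pow_rootMultiplicity_mul_and_not_dvd (minpoly E F) hne c
  rw [hk] at hQ hc
  have haev : ∀ n : ℕ, aeval F ((X - C c) ^ n : E[X]) = (F - c • 1) ^ n := by
    intro n
    rw [map_pow, map_sub, aeval_X, aeval_C, Algebra.algebraMap_eq_smul_one]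
  -- the polynomial of smaller degree
  have hR : aeval F ((X - C c) ^ (k - 1) * Q) ≠ 0 := by
    intro h0
    have h3 := minpoly.dvd E F h0
    rw [hQ] at h3
    have hQ0 : Q ≠ 0 := by
      rintro rfl
      exact hnd (dvd_zero _)
    have h4 := degree_le_of_dvd h3 (mul_ne_zero (pow_ne_zero _ (X_sub_C_ne_zero c)) hQ0)
    rw [degree_mul, degree_mul, degree_pow, degree_pow, degree_X_sub_C,
      degree_eq_natDegree hQ0] at h4
    simp only [nsmul_eq_mul, mul_one] at h4
    have h5 : k + Q.natDegree ≤ (k - 1) + Q.natDegree := by exact_mod_cast h4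
    omega
  obtain ⟨u, hu⟩ : ∃ u, aeval F ((X - C c) ^ (k - 1) * Q) u ≠ 0 := by
    by_contra hcon
    push Not at hcon
    exact hR (LinearMap.ext hcon)
  set v := aeval F Q u with hv
  have h3 : ((F - c • 1) ^ (k - 1)) v ≠ 0 := by
    rw [hv, ← haev, ← End.mul_apply, ← map_mul]
    exact hu
  have h4 : ((F - c • 1) ^ k) v = 0 := by
    rw [hv, ← haev, ← End.mul_apply, ← map_mul, ← hQ, minpoly.aeval]
    rfl
  refine ⟨c, k, hc, ?_⟩
  have hnot : ((F - c • 1) ^ (k - 1)) v ∉ LinearMap.range ((F - c • 1) ^ k) := by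
    rintro ⟨w, hw⟩
    apply h3
    have h5 : aeval F Q (((F - c • 1) ^ (k - 1)) v) = 0 := by
      rw [← hw, ← haev, ← End.mul_apply, ← map_mul, mul_comm, ← hQ, minpoly.aeval]
      rfl
    have h6 : aeval F (X - C c) (((F - c • 1) ^ (k - 1)) v) = 0 := by
      have h7 := haev 1
      rw [pow_one, pow_one] at h7
      rw [h7, ← End.mul_apply, ← pow_succ', Nat.sub_add_cancel (by omega)]
      exact h4
    have h7 : IsCoprime (X - C c) Q :=
      ((irreducible_X_sub_C c).coprime_iff_not_dvd).2 hnd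
    obtain ⟨a, b, hab⟩ := h7
    have h8 := congrArg (fun P => aeval F P (((F - c • 1) ^ (k - 1)) v)) hab
    simp only [map_add, map_mul, map_one, LinearMap.add_apply, End.mul_apply, h5, h6, map_zero,
      add_zero, End.one_apply] at h8
    exact h8.symm
  obtain ⟨φ, hφ1, hφ2⟩ := Submodule.exists_le_ker_of_notMem hnot
  exact ⟨v, φ, h4, fun u => hφ2 ⟨u, rfl⟩, hφ1⟩

/-- A semisimple endomorphism has no block of size at least two. -/
theorem no_block [FiniteDimensional E V] (F : End E V) (h : F.IsSemisimple) (c : E) (k : ℕ)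
    (hk : 2 ≤ k) : ¬ Crit F c k := by
  rintro ⟨v, φ, h1, -, h3⟩
  apply h3
  have h4 : v ∈ F.maxGenEigenspace c := by
    rw [End.mem_maxGenEigenspace]
    exact ⟨k, h1⟩
  rw [h.isFinitelySemisimple.maxGenEigenspace_eq_eigenspace, End.mem_eigenspace_iff] at h4
  have h5 : (F - c • 1) v = 0 := by
    rw [LinearMap.sub_apply, LinearMap.smul_apply, End.one_apply, h4, sub_self]
  obtain ⟨j, hj⟩ : ∃ j, k - 1 = j + 1 := ⟨k - 2, by omega⟩
  rw [hj, pow_succ, End.mul_apply, h5, map_zero, map_zero]

end semisimple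

end Pool.Agent.Helper17.JB
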