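import Pool.Agent.Helper17.JB.Crit

set_option autoImplicit false

/-! # The cohomology of smooth projective and of complete varieties over a finite field -/

namespace Pool.Agent.Helper17.JB

open Module
open scoped TensorProduct

section general

variable {E V W : Type} [Field E] [AddCommGroup V] [Module E V] [AddCommGroup W] [Module E W]

/-- The endomorphisms `F` and `G` are isomorphic. -/
def Similar (F : End E V) (G : End E W) : Prop := ∃ e : V ≃ₗ[E] W, ∀ a, G (e a) = e (F a)

/-- `B` is a perfect pairing of finite-dimensional spaces: bilinear and nondegenerate. -/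
def IsPairing (B : V → W → E) : Prop :=
  (∀ a b w, B (a + b) w = B a w + B b w) ∧ (∀ (r : E) v w, B (r • v) w = r * B v w) ∧
  (∀ v a b, B v (a + b) = B v a + B v b) ∧ (∀ (r : E) v w, B v (r • w) = r * B v w) ∧
  (∀ v, (∀ w, B v w = 0) → v = 0) ∧ ∀ w, (∀ v, B v w = 0) → w = 0

/-- For subspaces `X ≤ X'` of the space `W` with the endomorphism `G`: the quotient `X' / X` is a
subquotient of `V` with the endomorphism `F`. There is a subspace `R` of `V × W`, stable under
`F × G`, which is the graph of a linear map `g` of a subspace of `V` to `W / X` (`(v, w) ∈ R` if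
`g(v)` is the class of `w`), and the image of `g` contains `X' / X`. -/
def IsPiece (F : End E V) (G : End E W) (X X' : Submodule E W) : Prop :=
  ∃ R : Submodule E (V × W), (∀ v w, (v, w) ∈ R → (F v, G w) ∈ R) ∧
    (∀ w ∈ X', ∃ v, (v, w) ∈ R) ∧ ∀ w, (0, w) ∈ R → w ∈ X

/-- The tensor product of two endomorphisms. -/
noncomputable def tens (F : End E V) (G : End E W) : End E (V ⊗[E] W) := TensorProduct.map F G

end general

/-- A class of varieties with their `ℓ`-adic cohomology groups and the Frobenius on them. -/
structure Coh (E : Type) [Field E] where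
  /-- the varieties -/
  Var : Type
  /-- the cohomology groups -/
  H : Var → ℕ → Type
  [acg : ∀ X i, AddCommGroup (H X i)]
  [mod : ∀ X i, Module E (H X i)]
  [fin : ∀ X i, FiniteDimensional E (H X i)]
  /-- the Frobenius -/
  F : ∀ X i, End E (H X i)

attribute [instance] Coh.acg Coh.mod Coh.fin

variable {E : Type} [Field E]

/-- The space `⨁ H^i(X) ⊗ H^(n - i)(Y)`, `i ≤ n`. -/
def Coh.Ten (A : Coh E) (X Y : A.Var) (n : ℕ) : Type :=
  ∀ i : Fin (n + 1), A.H X i ⊗[E] A.H Y (n - i)

noncomputable instance (A : Coh E) (X Y : A.Var) (n : ℕ) : AddCommGroup (A.Ten X Y n) :=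
  inferInstanceAs (AddCommGroup (∀ i : Fin (n + 1), A.H X i ⊗[E] A.H Y (n - i)))

noncomputable instance (A : Coh E) (X Y : A.Var) (n : ℕ) : Module E (A.Ten X Y n) :=
  inferInstanceAs (Module E (∀ i : Fin (n + 1), A.H X i ⊗[E] A.H Y (n - i)))

/-- The Künneth formula `H^n(Z) = ⨁ H^i(X) ⊗ H^(n - i)(Y)`, `i ≤ n`, for `Z = X × Y`, compatible with
the Frobenius. -/
def Coh.Kunneth (A : Coh E) (X Y Z : A.Var) : Prop :=
  ∀ n, ∃ e : A.Ten X Y n ≃ₗ[E] A.H Z n,
    ∀ a, A.F Z n (e a) = e fun i => tens (A.F X i) (A.F Y (n - i)) (a i)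

/-- Poincaré duality for `X` of dimension `d`: perfect pairings `H^i(X) × H^j(X) → E`,
`i + j = 2 d`, which are multiplied by `c` by the Frobenius. -/
def Coh.Duality (A : Coh E) (X : A.Var) (d : ℕ) (c : E) : Prop :=
  ∀ i j, i + j = 2 * d → ∃ B : A.H X i → A.H X j → E, IsPairing B ∧
    ∀ a b, B (A.F X i a) (A.F X j b) = c * B a b

/-- The `ℓ`-adic cohomology of the smooth projective varieties (equidimensional, maybe not connected)
over the field with `q` elements: the Künneth formula, Poincaré duality, and the weights (Deligne):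
eigenvalues of the Frobenius on cohomology groups of different degrees are different. -/
structure SmoothTheory (q : ℕ) (E : Type) [Field E] extends Coh E where
  /-- the dimension -/
  dim : Var → ℕ
  van : ∀ X i, 2 * dim X < i → Subsingleton (H X i)
  /-- the product -/
  prod : Var → Var → Var
  dim_prod : ∀ X Y, dim (prod X Y) = dim X + dim Y
  kun : ∀ X Y, toCoh.Kunneth X Y (prod X Y)
  dual : ∀ X, toCoh.Duality X (dim X) ((q : E) ^ dim X)
  pure : ∀ X Y i j c, i ≠ j → (F X i).HasEigenvalue c → ¬ (F Y j).HasEigenvalue c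

namespace SmoothTheory

/-- The power `X ^ (n + 1)`. -/
def pow {q : ℕ} (A : SmoothTheory q E) (X : A.Var) : ℕ → A.Var
  | 0 => X
  | n + 1 => A.prod (pow A X n) X

/-- The sum of the Betti numbers. -/
noncomputable def betti {q : ℕ} (A : SmoothTheory q E) (X : A.Var) : ℕ :=
  ∑ i ∈ Finset.range (2 * A.dim X + 1), finrank E (A.H X i)

/-- On the middle cohomology `H^(2 e)(Y)` of `Y`, `dim Y = 2 e`, the Frobenius has a Jordan block of
size exactly `m` with the eigenvalue `q ^ e`. -/
def HasMiddleBlock {q : ℕ} (A : SmoothTheory q E) (Y : A.Var) (m : ℕ) : Prop :=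
  ∃ e, A.dim Y = 2 * e ∧ HasBlock (A.F Y (2 * e)) ((q : E) ^ e) m

end SmoothTheory

/-- The filtration `W` of `V = H^i(X)` with the Frobenius `F` is a weight filtration: `W 0 = 0`,
`W (i + 1) = V`, and `W (j + 1) / W j` is a subquotient of `H^j(Y)` for a smooth projective `Y`. -/
def IsWeightFiltration (A : Coh E) {V : Type} [AddCommGroup V] [Module E V] (F : End E V) (i : ℕ)
    (W : ℕ → Submodule E V) : Prop :=
  W 0 = ⊥ ∧ W (i + 1) = ⊤ ∧ ∀ j ≤ i, ∃ Y : A.Var, IsPiece (A.F Y j) F (W j) (W (j + 1))

/-- The `ℓ`-adic cohomology of the complete varieties over the same field. The smooth projective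
varieties are complete. The weight filtration of `H^i(X)` is given by a simplicial resolution of `X`
by smooth projective varieties (de Jong). -/
structure CompleteTheory {q : ℕ} {E : Type} [Field E] (A : SmoothTheory q E) extends Coh E where
  /-- smooth projective varieties are complete -/
  inc : A.Var → Var
  inc_H : ∀ Y i, Similar (A.F Y i) (F (inc Y) i)
  weights : ∀ X i, ∃ W, IsWeightFiltration A.toCoh (F X i) i W

/-- The statement of the problem over the given field: the Frobenius is semisimple on all cohomology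
groups of all complete varieties. -/
def CompleteTheory.Q1 {q : ℕ} {A : SmoothTheory q E} (C : CompleteTheory A) : Prop :=
  ∀ (X : C.Var) (i : ℕ), (C.F X i).IsSemisimple

end Pool.Agent.Helper17.JB
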