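import Pool.Agent.Helper17.JB.Main

set_option autoImplicit false

/-! # The three statements -/

namespace Pool.Agent.Helper17.JB

open Module Finset

variable {q : ℕ} {E : Type} [Field E] [CharZero E] [IsAlgClosed E] {A : SmoothTheory q E}

omit [CharZero E] [IsAlgClosed E] in
theorem dim_sq (X : A.Var) (n : ℕ) :
    A.dim (A.pow (A.prod X X) n) = 2 * ((n + 1) * A.dim X) := by
  rw [A.dim_pow, A.dim_prod]
  ring

/-- **All odd sizes.** -/
theorem all_odd (hq : q ≠ 0) (X : A.Var) (i : ℕ) (h : ¬ (A.F X i).IsSemisimple) (n : ℕ) :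
    A.HasMiddleBlock (A.pow (A.prod X X) n) (2 * n + 3) := by
  obtain ⟨c, k, hk, hc⟩ := exists_block (A.F X i) h
  exact ⟨(n + 1) * A.dim X, dim_sq X n, hasBlock_of_crit (by omega) (A.crit_pow hq hk hc n)⟩

/-- **One odd size.** -/
theorem one_odd (hq : q ≠ 0) (C : CompleteTheory A) (m : ℕ) (hm : Odd m) (hm3 : 3 ≤ m) :
    C.Q1 ↔ ∀ Y : A.Var, ¬ A.HasMiddleBlock Y m := by
  constructor
  · rintro h Y ⟨e, -, hb⟩
    exact smooth_of_q1 C h Y _ _ m (by omega) hb
  · intro h
    refine complete_of_smooth C fun X i => ?_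
    by_contra hcon
    obtain ⟨k, hk⟩ := hm
    obtain ⟨n, rfl⟩ : ∃ n, m = 2 * n + 3 := ⟨k - 1, by omega⟩
    exact h _ (all_odd hq X i hcon n)

/-- **The growth of the blocks.** -/
theorem growth (hq : q ≠ 0) (C : CompleteTheory A) :
    C.Q1 ↔ ∀ ε : ℝ, 0 < ε → ∃ K : ℝ, ∀ (Y : A.Var) (m : ℕ), A.HasMiddleBlock Y m →
      (m : ℝ) ≤ K + ε * (A.dim Y + Real.log (A.betti Y)) := by
  constructor
  · intro h ε hε
    refine ⟨1, fun Y m hb' => ?_⟩
    obtain ⟨e, -, hb⟩ := hb'
    have h1 : m < 2 := by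
      by_contra hcon
      exact smooth_of_q1 C h Y _ _ m (by omega) hb
    have h2 : (m : ℝ) ≤ 1 := by
      have : m ≤ 1 := by omega
      exact_mod_cast this
    have h3 : 0 ≤ Real.log (A.betti Y) := Real.log_natCast_nonneg _
    have h4 : (0 : ℝ) ≤ A.dim Y := Nat.cast_nonneg _
    have h5 : 0 ≤ ε * (A.dim Y + Real.log (A.betti Y)) := by positivity
    linarith
  · intro h
    refine complete_of_smooth C fun X i => ?_
    by_contra hcon
    set S : ℝ := 2 * A.dim X + 2 * Real.log (A.betti X) with hS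
    have hS0 : 0 ≤ S := by
      have h3 : 0 ≤ Real.log (A.betti X) := Real.log_natCast_nonneg _
      have h4 : (0 : ℝ) ≤ A.dim X := Nat.cast_nonneg _
      positivity
    obtain ⟨K, hK⟩ := h (1 / (S + 1)) (by positivity)
    obtain ⟨n, hn⟩ := exists_nat_gt K
    have h1 := hK _ _ (all_odd hq X i hcon n)
    have h2 : (A.dim (A.pow (A.prod X X) n) : ℝ) +
        Real.log (A.betti (A.pow (A.prod X X) n)) = (n + 1) * S := by
      rw [dim_sq, A.betti_pow, A.betti_prod]
      push_cast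
      rw [Real.log_pow, ← pow_two, Real.log_pow, hS]
      push_cast
      ring
    rw [h2] at h1
    have h3 : 1 / (S + 1) * ((n + 1) * S) ≤ n + 1 := by
      rw [one_div, inv_mul_le_iff₀ (by positivity)]
      have h4 : (0 : ℝ) ≤ n + 1 := by positivity
      nlinarith
    push_cast at h1
    linarith

end Pool.Agent.Helper17.JB
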