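import Pool.Agent.Helper17.JB.Three
import Pool.Agent.Helper17.JB.Defs

set_option autoImplicit false

/-! # Jordan blocks of the Frobenius of every odd size -/

namespace Pool.Agent.Helper17.JB

open Module Finset
open scoped TensorProduct

variable {q : ℕ} {E : Type} [Field E] (A : SmoothTheory q E)

namespace SmoothTheory

theorem dim_pow (X : A.Var) (n : ℕ) : A.dim (A.pow X n) = (n + 1) * A.dim X := by
  induction n with
  | zero => rw [zero_add, one_mul]; rfl
  | succ n ih =>
    change A.dim (A.prod (A.pow X n) X) = _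
    rw [A.dim_prod, ih]
    ring

theorem kun' (X Y : A.Var) (n : ℕ) :
    ∃ e : (∀ i : Fin (n + 1), A.H X i ⊗[E] A.H Y (n - i)) ≃ₗ[E] A.H (A.prod X Y) n,
      ∀ a, A.F (A.prod X Y) n (e a) =
        e fun i => TensorProduct.map (A.F X i) (A.F Y (n - i)) (a i) := A.kun X Y n

/-- a block of a summand of the Künneth formula -/
theorem kun_crit {X Y : A.Var} {i j n : ℕ} (h : i + j = n) {c : E} {m : ℕ}
    (hc : Crit (TensorProduct.map (A.F X i) (A.F Y j)) c m) :
    Crit (A.F (A.prod X Y) n) c m := by
  classical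
  obtain rfl : j = n - i := by omega
  have hi : i < n + 1 := by omega
  set p : Fin (n + 1) := ⟨i, hi⟩ with hp
  have hc' : Crit (TensorProduct.map (A.F X (p : ℕ)) (A.F Y (n - (p : ℕ)))) c m := hc
  obtain ⟨e, he⟩ := A.kun' X Y n
  refine hc'.transfer (e.toLinearMap ∘ₗ
      LinearMap.single E (fun k : Fin (n + 1) => A.H X (k : ℕ) ⊗[E] A.H Y (n - (k : ℕ))) p)
    (LinearMap.proj p ∘ₗ e.symm.toLinearMap) (fun v => ?_) (fun v => ?_) fun w => ?_
  · rw [LinearMap.comp_apply, LinearMap.comp_apply, LinearEquiv.coe_coe, LinearEquiv.coe_coe,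
      LinearEquiv.symm_apply_apply, LinearMap.proj_apply, LinearMap.coe_single, Pi.single_eq_same]
  · rw [LinearMap.comp_apply, LinearMap.comp_apply, LinearEquiv.coe_coe, he]
    congr 1
    funext k
    rw [LinearMap.coe_single]
    rcases eq_or_ne k p with rfl | hk
    · rw [Pi.single_eq_same, Pi.single_eq_same]
    · rw [Pi.single_eq_of_ne hk, Pi.single_eq_of_ne hk, map_zero]
  · obtain ⟨a, rfl⟩ := e.surjective w
    rw [he, LinearMap.comp_apply, LinearMap.comp_apply, LinearEquiv.coe_coe,
      LinearEquiv.symm_apply_apply, LinearEquiv.symm_apply_apply, LinearMap.proj_apply,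
      LinearMap.proj_apply]

theorem crit_deg {X : A.Var} {i j a b : ℕ} (h : i = j) (h' : a = b) {m : ℕ}
    (hc : Crit (A.F X i) ((q : E) ^ a) m) : Crit (A.F X j) ((q : E) ^ b) m := by
  subst h h'
  exact hc

variable [CharZero E]

/-- the block of size three -/
theorem crit_sq (hq : q ≠ 0) {X : A.Var} {i : ℕ} {c : E} {k : ℕ} (hk : 2 ≤ k)
    (h : Crit (A.F X i) c k) :
    Crit (A.F (A.prod X X) (2 * A.dim X)) ((q : E) ^ A.dim X) 3 := by
  have hi : i ≤ 2 * A.dim X := by
    by_contra hcon
    have h1 := A.van X i (by omega)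
    obtain ⟨v, φ, -, -, h3⟩ := h
    apply h3
    rw [Subsingleton.elim (((A.F X i - c • 1) ^ (k - 1)) v) 0, map_zero]
  have hij : i + (2 * A.dim X - i) = 2 * A.dim X := by omega
  refine A.kun_crit hij ?_
  obtain ⟨B, ⟨h1, h2, h3, h4, h5, h6⟩, h7⟩ := A.dual X i _ hij
  exact Crit.dual (pow_ne_zero _ (by exact_mod_cast hq)) (LinearMap.mk₂ E B h1 h2 h3 h4) h5 h6 h7
    hk h

/-- the blocks of odd size -/
theorem crit_pow (hq : q ≠ 0) {X : A.Var} {i : ℕ} {c : E} {k : ℕ} (hk : 2 ≤ k)
    (h : Crit (A.F X i) c k) (n : ℕ) :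
    Crit (A.F (A.pow (A.prod X X) n) (2 * ((n + 1) * A.dim X)))
      ((q : E) ^ ((n + 1) * A.dim X)) (2 * n + 3) := by
  have hq' : (q : E) ≠ 0 := by exact_mod_cast hq
  have h0 := A.crit_sq hq hk h
  induction n with
  | zero =>
    exact A.crit_deg (by ring) (by ring) h0
  | succ n ih =>
    have h1 := ih.tensor (by omega) (by norm_num) (pow_ne_zero _ hq') (pow_ne_zero _ hq') h0
    have h2 : (q : E) ^ ((n + 1) * A.dim X) * (q : E) ^ A.dim X =
        (q : E) ^ ((n + 1 + 1) * A.dim X) := by
      rw [← pow_add]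
      congr 1
      ring
    have h3 : 2 * n + 3 + 3 - 1 = 2 * (n + 1) + 3 := by omega
    rw [h2, h3] at h1
    exact A.kun_crit (X := A.pow (A.prod X X) n) (Y := A.prod X X) (by ring) h1

omit [CharZero E] in
theorem betti_prod (X Y : A.Var) : A.betti (A.prod X Y) = A.betti X * A.betti Y := by
  classical
  -- the polynomials
  have hco : ∀ (Z : A.Var) (n : ℕ), (∑ i ∈ range (2 * A.dim Z + 1),
      Polynomial.monomial i (finrank E (A.H Z i)) : Polynomial ℕ).coeff n =
        finrank E (A.H Z n) := by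
    intro Z n
    rw [Polynomial.finsetSum_coeff]
    simp only [Polynomial.coeff_monomial]
    rw [sum_ite_eq']
    split_ifs with h
    · rfl
    · rw [mem_range] at h
      have h1 := A.van Z n (by omega)
      exact finrank_zero_of_subsingleton.symm
  have hev : ∀ Z : A.Var, (∑ i ∈ range (2 * A.dim Z + 1),
      Polynomial.monomial i (finrank E (A.H Z i)) : Polynomial ℕ).eval 1 = A.betti Z := by
    intro Z
    rw [Polynomial.eval_finsetSum]
    unfold betti
    refine sum_congr rfl fun i _ => ?_
    rw [Polynomial.eval_monomial, one_pow, mul_one]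
  have hmul : (∑ i ∈ range (2 * A.dim (A.prod X Y) + 1),
      Polynomial.monomial i (finrank E (A.H (A.prod X Y) i)) : Polynomial ℕ) =
      (∑ i ∈ range (2 * A.dim X + 1),
        Polynomial.monomial i (finrank E (A.H X i)) : Polynomial ℕ) *
      (∑ i ∈ range (2 * A.dim Y + 1),
        Polynomial.monomial i (finrank E (A.H Y i)) : Polynomial ℕ) := by
    ext n
    obtain ⟨e, -⟩ := A.kun' X Y n
    rw [hco, Polynomial.coeff_mul, ← e.finrank_eq, Module.finrank_pi_fintype,
      Finset.Nat.sum_antidiagonal_eq_sum_range_succ_mk, Finset.sum_range]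
    refine sum_congr rfl fun i _ => ?_
    rw [hco, hco, finrank_tensorProduct]
  rw [← hev, ← hev, ← hev, hmul, Polynomial.eval_mul]

omit [CharZero E] in
theorem betti_pow (X : A.Var) (n : ℕ) : A.betti (A.pow X n) = A.betti X ^ (n + 1) := by
  induction n with
  | zero => rw [zero_add, pow_one]; rfl
  | succ n ih =>
    change A.betti (A.prod (A.pow X n) X) = _
    rw [A.betti_prod, ih, ← pow_succ]

end SmoothTheory

variable {A} (C : CompleteTheory A)

section complete

open Polynomial

theorem rel_aeval {V W : Type} [AddCommGroup V] [Module E V] [AddCommGroup W] [Module E W]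
    (F : End E V) (G : End E W) (S : Submodule E (V × W))
    (hS : ∀ v w, (v, w) ∈ S → (F v, G w) ∈ S) (P : E[X]) (v : V) (w : W) (h : (v, w) ∈ S) :
    (aeval F P v, aeval G P w) ∈ S := by
  have h1 : ∀ n : ℕ, ((F ^ n) v, (G ^ n) w) ∈ S := by
    intro n
    induction n with
    | zero => exact h
    | succ n ih =>
      rw [pow_succ', pow_succ', End.mul_apply, End.mul_apply]
      exact hS _ _ ih
  rw [aeval_eq_sum_range, aeval_eq_sum_range, LinearMap.sum_apply, LinearMap.sum_apply]
  have h2 : ((∑ i ∈ range (P.natDegree + 1), (P.coeff i • F ^ i) v),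
      (∑ i ∈ range (P.natDegree + 1), (P.coeff i • G ^ i) w)) =
      ∑ i ∈ range (P.natDegree + 1), P.coeff i • (((F ^ i) v, (G ^ i) w) : V × W) := by
    rw [Prod.ext_iff]
    constructor
    · rw [Prod.fst_sum]
      rfl
    · rw [Prod.snd_sum]
      rfl
  rw [h2]
  exact S.sum_mem fun i _ => S.smul_mem _ (h1 i)

/-- **The semisimplicity for smooth projective varieties implies the general case.** -/
theorem complete_of_smooth [CharZero E] [IsAlgClosed E]
    (h : ∀ (Y : A.Var) (j : ℕ), (A.F Y j).IsSemisimple) : C.Q1 := by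
  classical
  intro X i
  obtain ⟨W, hW0, hW1, hW⟩ := C.weights X i
  choose Y R hR1 hR2 hR3 using hW
  let P : ℕ → E[X] := fun j => if hj : j ≤ i then minpoly E (A.F (Y j hj) j) else 1
  have hP : ∀ j (hj : j ≤ i), P j = minpoly E (A.F (Y j hj) j) := fun j hj => dif_pos hj
  -- the polynomials lower the filtration
  have hlow : ∀ j (hj : j ≤ i) w, w ∈ W (j + 1) → aeval (C.F X i) (P j) w ∈ W j := by
    intro j hj w hw
    obtain ⟨b, hb⟩ := hR2 j hj w hw
    have h1 := rel_aeval (A.F (Y j hj) j) (C.F X i) (R j hj) (hR1 j hj) (P j) b w hb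
    have h2 : aeval (A.F (Y j hj) j) (P j) b = 0 := by
      rw [hP j hj, minpoly.aeval]
      rfl
    rw [h2] at h1
    exact hR3 j hj _ h1
  have hkill : ∀ n, n ≤ i + 1 → ∀ w ∈ W n, aeval (C.F X i) (∏ j ∈ range n, P j) w = 0 := by
    intro n
    induction n with
    | zero =>
      intro _ w hw
      rw [hW0, Submodule.mem_bot] at hw
      rw [hw, map_zero]
    | succ n ih =>
      intro hn w hw
      rw [prod_range_succ, map_mul, End.mul_apply]
      exact ih (by omega) _ (hlow n (by omega) w hw)
  -- the product is squarefree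
  have hcop : ∀ j (hj : j ≤ i) l (hl : l ≤ i), j ≠ l → IsCoprime (P j) (P l) := by
    intro j hj l hl hjl
    rw [hP j hj, hP l hl, Polynomial.isCoprime_iff_aeval_ne_zero_of_isAlgClosed E E]
    intro c
    by_contra hcon
    push Not at hcon
    have h1 : (A.F (Y j hj) j).HasEigenvalue c :=
      Module.End.hasEigenvalue_of_isRoot (by
        rw [IsRoot.def, ← hcon.1, coe_aeval_eq_eval])
    have h2 : (A.F (Y l hl) l).HasEigenvalue c :=
      Module.End.hasEigenvalue_of_isRoot (by
        rw [IsRoot.def, ← hcon.2, coe_aeval_eq_eval])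
    exact A.pure _ _ _ _ c hjl h1 h2
  have hsq : ∀ n, n ≤ i + 1 → Squarefree (∏ j ∈ range n, P j) := by
    intro n
    induction n with
    | zero => intro _; rw [prod_range_zero]; exact squarefree_one
    | succ n ih =>
      intro hn
      rw [prod_range_succ, squarefree_mul_iff]
      refine ⟨?_, ih (by omega), ?_⟩
      · refine IsCoprime.isRelPrime ?_
        refine IsCoprime.prod_left fun j hj => ?_
        rw [mem_range] at hj
        exact hcop j (by omega) n (by omega) (by omega)
      · rw [hP n (by omega)]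
        exact (h _ _).minpoly_squarefree
  refine End.isSemisimple_of_squarefree_aeval_eq_zero (hsq (i + 1) le_rfl) ?_
  refine LinearMap.ext fun w => ?_
  rw [hkill (i + 1) le_rfl w (by rw [hW1]; trivial)]
  rfl

end complete

theorem smooth_of_q1 (h : C.Q1) (Y : A.Var) (i : ℕ) (c : E) (m : ℕ) (hm : 2 ≤ m) :
    ¬ HasBlock (A.F Y i) c m := by
  intro hb
  have h1 := crit_of_hasBlock (by omega) hb
  obtain ⟨e, he⟩ := C.inc_H Y i
  refine no_block (C.F (C.inc Y) i) (h _ _) c m hm (h1.transfer e.toLinearMap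
    e.symm.toLinearMap (fun v => ?_) (fun v => ?_) fun w => ?_)
  · exact e.symm_apply_apply v
  · exact he v
  · obtain ⟨a, rfl⟩ := e.surjective w
    rw [he]
    simp only [LinearEquiv.coe_coe, LinearEquiv.symm_apply_apply]

end Pool.Agent.Helper17.JB
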