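import Pool.Agent.Helper17.JB.Crit

set_option autoImplicit false

/-! # Jordan blocks of tensor products -/

namespace Pool.Agent.Helper17.JB

open Module
open scoped TensorProduct

variable {E V W : Type} [Field E] [AddCommGroup V] [Module E V] [AddCommGroup W] [Module E W]

theorem big_zero {F : End E V} {v : V} {a : ℕ} (h : (F ^ a) v = 0) {k : ℕ} (hk : a ≤ k) :
    (F ^ k) v = 0 := by
  obtain ⟨l, rfl⟩ := Nat.exists_eq_add_of_le hk
  rw [add_comm, pow_add, End.mul_apply, h, map_zero]

theorem big_zero' {F : End E V} {φ : V →ₗ[E] E} {a : ℕ} (h : ∀ u, φ ((F ^ a) u) = 0) {k : ℕ}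
    (hk : a ≤ k) (u : V) : φ ((F ^ k) u) = 0 := by
  obtain ⟨l, rfl⟩ := Nat.exists_eq_add_of_le hk
  rw [pow_add, End.mul_apply]
  exact h _

theorem map_pow' (A : End E V) (B : End E W) (n : ℕ) :
    (TensorProduct.map A B) ^ n = TensorProduct.map (A ^ n) (B ^ n) := by
  induction n with
  | zero =>
    rw [pow_zero, pow_zero, pow_zero]
    exact TensorProduct.map_one.symm
  | succ n ih =>
    rw [pow_succ, ih, pow_succ, pow_succ]
    exact (TensorProduct.map_mul _ _ _ _).symm

/-- the powers of `F ⊗ G - c d` -/
theorem tens_pow (F : End E V) (G : End E W) (c d : E) (n : ℕ) (v : V) (w : W) :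
    ((TensorProduct.map F G - (c * d) • (1 : End E (V ⊗[E] W))) ^ n) (v ⊗ₜ w) =
      ∑ k ∈ Finset.range (n + 1), (n.choose k : E) • (c ^ (n - k)) •
        ((((F - c • 1) ^ k) v) ⊗ₜ[E] ((G ^ k) (((G - d • 1) ^ (n - k)) w))) := by
  set N := F - c • (1 : End E V) with hN
  set M := G - d • (1 : End E W) with hM
  have h1 : TensorProduct.map F G - (c * d) • (1 : End E (V ⊗[E] W)) =
      TensorProduct.map N G + c • TensorProduct.map (1 : End E V) M := by
    refine TensorProduct.ext' fun x y => ?_
    rw [LinearMap.sub_apply, LinearMap.smul_apply, End.one_apply, LinearMap.add_apply,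
      LinearMap.smul_apply, TensorProduct.map_tmul, TensorProduct.map_tmul,
      TensorProduct.map_tmul, End.one_apply, hN, hM, LinearMap.sub_apply, LinearMap.sub_apply,
      LinearMap.smul_apply, LinearMap.smul_apply, End.one_apply, End.one_apply,
      TensorProduct.sub_tmul, TensorProduct.tmul_sub, TensorProduct.tmul_smul, smul_sub,
      TensorProduct.smul_tmul', smul_smul, ← TensorProduct.smul_tmul', ← TensorProduct.smul_tmul']
    abel
  have hcomm : Commute G M := by
    rw [hM]
    exact (Commute.refl G).sub_right ((Commute.one_right G).smul_right d)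
  have h2 : Commute (TensorProduct.map N G) (c • TensorProduct.map (1 : End E V) M) := by
    refine Commute.smul_right ?_ c
    change TensorProduct.map N G * TensorProduct.map 1 M =
      TensorProduct.map 1 M * TensorProduct.map N G
    rw [← TensorProduct.map_mul, ← TensorProduct.map_mul, one_mul, mul_one, hcomm.eq]
  rw [h1, h2.add_pow, LinearMap.sum_apply]
  refine Finset.sum_congr rfl fun k _ => ?_
  rw [smul_pow, map_pow', map_pow', one_pow, ← Nat.cast_comm, End.mul_apply, End.mul_apply,
    LinearMap.smul_apply, TensorProduct.map_tmul, End.one_apply, map_smul,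
    TensorProduct.map_tmul]
  have h3 : ∀ x : V ⊗[E] W, ((n.choose k : End E (V ⊗[E] W))) x = (n.choose k : E) • x := by
    intro x
    rw [Nat.cast_smul_eq_nsmul, ← nsmul_one, LinearMap.smul_apply, End.one_apply]
  exact h3 _

/-- **Blocks of sizes `a` and `b` give a block of size `a + b - 1`.** -/
theorem Crit.tensor [CharZero E] {F : End E V} {G : End E W} {c d : E} {a b : ℕ} (ha : 1 ≤ a)
    (hb : 1 ≤ b) (hc : c ≠ 0) (hd : d ≠ 0) (hF : Crit F c a) (hG : Crit G d b) :
    Crit (TensorProduct.map F G) (c * d) (a + b - 1) := by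
  obtain ⟨v, φ, h1, h2, h3⟩ := hF
  obtain ⟨w, ψ, g1, g2, g3⟩ := hG
  have hcomm : Commute G (G - d • 1) :=
    (Commute.refl G).sub_right ((Commute.one_right G).smul_right d)
  have hsw : ∀ (k l : ℕ) (t : W), (G ^ k) (((G - d • 1) ^ l) t) = ((G - d • 1) ^ l) ((G ^ k) t) := by
    intro k l t
    rw [← End.mul_apply, (hcomm.pow_pow k l).eq, End.mul_apply]
  have hGM : ∀ k : ℕ, (G ^ k) (((G - d • 1) ^ (b - 1)) w) = d ^ k • ((G - d • 1) ^ (b - 1)) w := by
    intro k
    induction k with
    | zero => rw [pow_zero, pow_zero, one_smul, End.one_apply]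
    | succ k ih =>
      rw [pow_succ', End.mul_apply, ih, map_smul]
      have h4 : G (((G - d • 1) ^ (b - 1)) w) = d • ((G - d • 1) ^ (b - 1)) w := by
        have h5 : (G - d • 1) (((G - d • 1) ^ (b - 1)) w) = 0 := by
          rw [← End.mul_apply, ← pow_succ', Nat.sub_add_cancel hb]
          exact g1
        rw [LinearMap.sub_apply, LinearMap.smul_apply, End.one_apply, sub_eq_zero] at h5
        exact h5
      rw [h4, smul_smul, pow_succ]
  refine ⟨v ⊗ₜ w, LinearMap.mul' E E ∘ₗ TensorProduct.map φ ψ, ?_, fun u => ?_, ?_⟩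
  · rw [tens_pow]
    refine Finset.sum_eq_zero fun k hk => ?_
    rw [Finset.mem_range] at hk
    rcases Nat.lt_or_ge k a with h4 | h4
    · rw [big_zero g1 (by omega), map_zero, TensorProduct.tmul_zero, smul_zero, smul_zero]
    · rw [big_zero h1 h4, TensorProduct.zero_tmul, smul_zero, smul_zero]
  · induction u using TensorProduct.induction_on with
    | zero => rw [map_zero, map_zero]
    | tmul x y =>
      rw [tens_pow, map_sum]
      refine Finset.sum_eq_zero fun k hk => ?_
      rw [Finset.mem_range] at hk
      rw [map_smul, map_smul, LinearMap.comp_apply, TensorProduct.map_tmul,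
        LinearMap.mul'_apply]
      rcases Nat.lt_or_ge k a with h4 | h4
      · rw [hsw, big_zero' g2 (by omega), mul_zero, smul_zero, smul_zero]
      · rw [big_zero' h2 h4, zero_mul, smul_zero, smul_zero]
    | add x y hx hy => rw [map_add, map_add, hx, hy, add_zero]
  · rw [tens_pow, map_sum, Finset.sum_eq_single (a - 1)]
    · rw [map_smul, map_smul, LinearMap.comp_apply, TensorProduct.map_tmul,
        LinearMap.mul'_apply]
      have h4 : a + b - 1 - 1 - (a - 1) = b - 1 := by omega
      rw [h4, hGM, map_smul]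
      simp only [smul_eq_mul]
      refine mul_ne_zero ?_ (mul_ne_zero (pow_ne_zero _ hc) (mul_ne_zero h3
        (mul_ne_zero (pow_ne_zero _ hd) g3)))
      exact_mod_cast (Nat.choose_pos (by omega)).ne'
    · intro k hk hk'
      rw [Finset.mem_range] at hk
      rw [map_smul, map_smul, LinearMap.comp_apply, TensorProduct.map_tmul,
        LinearMap.mul'_apply]
      rcases Nat.lt_or_ge k a with h4 | h4
      · rw [big_zero g1 (by omega), map_zero, map_zero, mul_zero, smul_zero, smul_zero]
      · rw [big_zero h1 h4, map_zero, zero_mul, smul_zero, smul_zero]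
    · intro hk
      exact absurd (Finset.mem_range.2 (by omega)) hk

end Pool.Agent.Helper17.JB
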