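import Pool.Agent.Helper17.JB.Tens

set_option autoImplicit false

/-! # A Jordan block of size three -/

namespace Pool.Agent.Helper17.JB

open Module Finset
open scoped TensorProduct

section seq

variable {E U : Type} [Field E] [AddCommGroup U] [Module E U]

/-- a double sequence, and an operator which acts as the difference of the two shifts -/
structure Dbl (D : End E U) (K : ℕ) (u : ℕ → ℕ → U) : Prop where
  step : ∀ i j, D (u i j) = u (i + 1) j - u i (j + 1)
  left : ∀ i j, K + 2 ≤ i → u i j = 0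
  right : ∀ i j, K + 2 ≤ j → u i j = 0

variable {D : End E U} {K : ℕ} {u : ℕ → ℕ → U}

/-- the primitive vector -/
def prim (E : Type) [Field E] {U : Type} [AddCommGroup U] [Module E U] (K : ℕ) (u : ℕ → ℕ → U) : U :=
  ∑ p ∈ antidiagonal K, (((p.1 + 1) * (p.2 + 1) : ℕ) : E) • u p.1 p.2

theorem dbl_one (h : Dbl D K u) : D (prim E K u) =
    ∑ p ∈ antidiagonal (K + 1), ((p.1 : E) - (p.2 : E)) • u p.1 p.2 := by
  unfold prim
  rw [map_sum]
  have h1 : ∀ p ∈ antidiagonal K, D ((((p.1 + 1) * (p.2 + 1) : ℕ) : E) • u p.1 p.2) =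
      (((p.1 + 1) * (p.2 + 1) : ℕ) : E) • u (p.1 + 1) p.2 -
        (((p.1 + 1) * (p.2 + 1) : ℕ) : E) • u p.1 (p.2 + 1) := by
    intro p _
    rw [map_smul, h.step, smul_sub]
  rw [sum_congr rfl h1, sum_sub_distrib]
  have h2 := Nat.sum_antidiagonal_succ (n := K)
    (f := fun p : ℕ × ℕ => ((p.1 * (p.2 + 1) : ℕ) : E) • u p.1 p.2)
  have h3 := Nat.sum_antidiagonal_succ' (n := K)
    (f := fun p : ℕ × ℕ => (((p.1 + 1) * p.2 : ℕ) : E) • u p.1 p.2)
  simp only [zero_mul, Nat.cast_zero, zero_smul, zero_add, mul_zero] at h2 h3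
  have h2' : ∑ p ∈ antidiagonal K, (((p.1 + 1) * (p.2 + 1) : ℕ) : E) • u (p.1 + 1) p.2 =
      ∑ p ∈ antidiagonal (K + 1), ((p.1 * (p.2 + 1) : ℕ) : E) • u p.1 p.2 := by
    rw [h2]
  have h3' : ∑ p ∈ antidiagonal K, (((p.1 + 1) * (p.2 + 1) : ℕ) : E) • u p.1 (p.2 + 1) =
      ∑ p ∈ antidiagonal (K + 1), (((p.1 + 1) * p.2 : ℕ) : E) • u p.1 p.2 := by
    rw [h3]
  rw [h2', h3', ← sum_sub_distrib]
  refine sum_congr rfl fun p _ => ?_
  rw [← sub_smul]
  congr 1
  push_cast
  ring

theorem dbl_two (h : Dbl D K u) : (D ^ 2) (prim E K u) =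
    (-2 : E) • ∑ p ∈ antidiagonal (K + 2), u p.1 p.2 := by
  rw [pow_two, End.mul_apply, dbl_one h, map_sum]
  have h1 : ∀ p ∈ antidiagonal (K + 1), D (((p.1 : E) - (p.2 : E)) • u p.1 p.2) =
      ((p.1 : E) - (p.2 : E)) • u (p.1 + 1) p.2 - ((p.1 : E) - (p.2 : E)) • u p.1 (p.2 + 1) := by
    intro p _
    rw [map_smul, h.step, smul_sub]
  rw [sum_congr rfl h1, sum_sub_distrib]
  have h2 := Nat.sum_antidiagonal_succ (n := K + 1)
    (f := fun p : ℕ × ℕ => ((p.1 : E) - 1 - (p.2 : E)) • u p.1 p.2)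
  have h3 := Nat.sum_antidiagonal_succ' (n := K + 1)
    (f := fun p : ℕ × ℕ => ((p.1 : E) - ((p.2 : E) - 1)) • u p.1 p.2)
  simp only at h2 h3
  rw [h.right 0 (K + 1 + 1) (by omega), smul_zero, zero_add] at h2
  rw [h.left (K + 1 + 1) 0 (by omega), smul_zero, zero_add] at h3
  have h2' : ∑ p ∈ antidiagonal (K + 1), ((p.1 : E) - (p.2 : E)) • u (p.1 + 1) p.2 =
      ∑ p ∈ antidiagonal (K + 2), ((p.1 : E) - 1 - (p.2 : E)) • u p.1 p.2 := by
    rw [h2]
    refine sum_congr rfl fun p _ => ?_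
    congr 1
    push_cast
    ring
  have h3' : ∑ p ∈ antidiagonal (K + 1), ((p.1 : E) - (p.2 : E)) • u p.1 (p.2 + 1) =
      ∑ p ∈ antidiagonal (K + 2), ((p.1 : E) - ((p.2 : E) - 1)) • u p.1 p.2 := by
    rw [h3]
    refine sum_congr rfl fun p _ => ?_
    congr 1
    push_cast
    ring
  rw [h2', h3', ← sum_sub_distrib, smul_sum]
  refine sum_congr rfl fun p _ => ?_
  rw [← sub_smul]
  congr 1
  ring

theorem dbl_three (h : Dbl D K u) : (D ^ 3) (prim E K u) = 0 := by
  rw [pow_succ', End.mul_apply, dbl_two h, map_smul, map_sum]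
  have h1 : ∀ p ∈ antidiagonal (K + 2), D (u p.1 p.2) = u (p.1 + 1) p.2 - u p.1 (p.2 + 1) :=
    fun p _ => h.step _ _
  rw [sum_congr rfl h1, sum_sub_distrib]
  have h2 := Nat.sum_antidiagonal_succ (n := K + 2) (f := fun p : ℕ × ℕ => u p.1 p.2)
  have h3 := Nat.sum_antidiagonal_succ' (n := K + 2) (f := fun p : ℕ × ℕ => u p.1 p.2)
  simp only at h2 h3
  rw [h.right 0 (K + 2 + 1) (by omega), zero_add] at h2
  rw [h.left (K + 2 + 1) 0 (by omega), zero_add] at h3
  rw [← h2, ← h3, sub_self, smul_zero]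

end seq

variable {E V W : Type} [Field E] [AddCommGroup V] [Module E V] [AddCommGroup W] [Module E W]

theorem dual_pow (D : End E V) (n : ℕ) (Φ : Dual E V) (x : V) :
    ((D.dualMap ^ n : End E (Dual E V)) Φ) x = Φ ((D ^ n) x) := by
  induction n generalizing Φ x with
  | zero => rfl
  | succ n ih =>
    rw [pow_succ, End.mul_apply, ih, LinearMap.dualMap_apply, ← End.mul_apply, ← pow_succ']

/-- **A block of size at least two gives a block of size exactly three in the tensor product with the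
dual.** -/
theorem crit_three [CharZero E] {N : End E V} {N' : End E W} (B : V →ₗ[E] W →ₗ[E] E)
    (hB : ∀ x y, B (N x) y = B x (N' y)) (hB' : ∀ y, (∀ x, B x y = 0) → y = 0) (K : ℕ) (v : V)
    (w : W) (h1 : (N ^ (K + 2)) v = 0) (h2 : ∀ u, B ((N ^ (K + 2)) u) w = 0)
    (h3 : B ((N ^ (K + 1)) v) w ≠ 0) (D : End E (V ⊗[E] W))
    (hD : ∀ x y, D (x ⊗ₜ y) = (N x) ⊗ₜ y - x ⊗ₜ (N' y)) :
    ∃ (f : V ⊗[E] W) (Φ : V ⊗[E] W →ₗ[E] E),
      (D ^ 3) f = 0 ∧ (∀ u, Φ ((D ^ 3) u) = 0) ∧ Φ ((D ^ 2) f) ≠ 0 := by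
  have hBk : ∀ (k : ℕ) x y, B x ((N' ^ k) y) = B ((N ^ k) x) y := by
    intro k
    induction k with
    | zero => exact fun x y => rfl
    | succ k ih =>
      intro x y
      rw [pow_succ', End.mul_apply, ← hB, ih, pow_succ, End.mul_apply]
  have hw : (N' ^ (K + 2)) w = 0 := hB' _ fun x => by rw [hBk, h2]
  have hN2 : ∀ k, K + 2 ≤ k → ∀ u, B ((N ^ k) u) w = 0 := by
    intro k hk u
    rw [← hBk, big_zero hw hk, map_zero]
  -- the vectors
  have hu : Dbl D K (fun i j => ((N ^ i) v) ⊗ₜ[E] ((N' ^ j) w)) :=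
    { step := fun i j => by
        rw [hD, ← End.mul_apply, ← pow_succ', ← End.mul_apply N', ← pow_succ']
      left := fun i j hi => by rw [big_zero h1 hi, TensorProduct.zero_tmul]
      right := fun i j hj => by rw [big_zero hw hj, TensorProduct.tmul_zero] }
  -- the functionals
  let Ψ : ℕ → ℕ → Dual E (V ⊗[E] W) := fun i j =>
    LinearMap.mul' E E ∘ₗ TensorProduct.map ((B.flip w) ∘ₗ (N ^ i)) (B ((N ^ j) v))
  have hΨ : ∀ i j x y, Ψ i j (x ⊗ₜ y) = B ((N ^ i) x) w * B ((N ^ j) v) y := fun i j x y => rfl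
  have hΦ : Dbl (D.dualMap : End E (Dual E (V ⊗[E] W))) K Ψ :=
    { step := fun i j => by
        refine TensorProduct.ext' fun x y => ?_
        rw [LinearMap.dualMap_apply, hD, map_sub, hΨ, hΨ, LinearMap.sub_apply, hΨ, hΨ, ← hB,
          ← End.mul_apply (N ^ i), ← pow_succ, ← End.mul_apply N, ← pow_succ']
      left := fun i j hi => by
        refine TensorProduct.ext' fun x y => ?_
        rw [hΨ, hN2 i hi, zero_mul, LinearMap.zero_apply]
      right := fun i j hj => by
        refine TensorProduct.ext' fun x y => ?_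
        rw [hΨ, big_zero h1 hj, map_zero, LinearMap.zero_apply, mul_zero, LinearMap.zero_apply] }
  refine ⟨prim E K (fun i j => ((N ^ i) v) ⊗ₜ[E] ((N' ^ j) w)), prim E K Ψ, dbl_three hu,
    fun u => ?_, ?_⟩
  · rw [← dual_pow, dbl_three hΦ]
    rfl
  · rw [dbl_two hu, map_smul, map_sum]
    unfold prim
    -- the values
    have h4 : ∀ i j s t, Ψ i j (((N ^ s) v) ⊗ₜ[E] ((N' ^ t) w)) =
        B ((N ^ (i + s)) v) w * B ((N ^ (j + t)) v) w := by
      intro i j s t
      rw [hΨ, hBk, ← End.mul_apply, ← pow_add, ← End.mul_apply, ← pow_add, add_comm t j]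
    have h5 : ∀ i j, i + j = K → ∑ p ∈ antidiagonal (K + 2),
        Ψ i j (((N ^ p.1) v) ⊗ₜ[E] ((N' ^ p.2) w)) = B ((N ^ (K + 1)) v) w ^ 2 := by
      intro i j hij
      rw [sum_eq_single (K + 1 - i, K + 1 - j)]
      · rw [h4]
        have e1 : i + (K + 1 - i) = K + 1 := by omega
        have e2 : j + (K + 1 - j) = K + 1 := by omega
        simp only [e1, e2]
        rw [pow_two]
      · rintro ⟨s, t⟩ hst hne
        rw [HasAntidiagonal.mem_antidiagonal] at hst
        simp only at hst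
        rw [h4]
        simp only
        rcases Nat.lt_or_ge (i + s) (K + 2) with h6 | h6
        · rcases Nat.lt_or_ge (j + t) (K + 2) with h7 | h7
          · exfalso
            apply hne
            rw [Prod.mk.injEq]
            omega
          · rw [hN2 _ h7, mul_zero]
        · rw [hN2 _ h6, zero_mul]
      · intro h6
        exfalso
        apply h6
        rw [HasAntidiagonal.mem_antidiagonal]
        simp only
        omega
    have h6 : ∑ p ∈ antidiagonal (K + 2), (∑ p ∈ antidiagonal K,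
        (((p.1 + 1) * (p.2 + 1) : ℕ) : E) • Ψ p.1 p.2) (((N ^ p.1) v) ⊗ₜ[E] ((N' ^ p.2) w)) =
        ((∑ p ∈ antidiagonal K, (p.1 + 1) * (p.2 + 1) : ℕ) : E) *
          B ((N ^ (K + 1)) v) w ^ 2 := by
      simp only [LinearMap.sum_apply, LinearMap.smul_apply]
      rw [sum_comm, Nat.cast_sum, sum_mul]
      refine sum_congr rfl fun p hp => ?_
      rw [← smul_sum, h5 p.1 p.2 (HasAntidiagonal.mem_antidiagonal.1 hp), smul_eq_mul]
    rw [h6]
    refine smul_ne_zero (by norm_num) (mul_ne_zero ?_ (pow_ne_zero 2 h3))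
    have h7 : 0 < ∑ p ∈ antidiagonal K, (p.1 + 1) * (p.2 + 1) :=
      sum_pos (fun p _ => by positivity) ⟨(0, K), HasAntidiagonal.mem_antidiagonal.2 (zero_add K)⟩
    exact_mod_cast h7.ne'

/-- **Poincaré duality: a block of size exactly three for the eigenvalue `q`.** -/
theorem Crit.dual [CharZero E] [FiniteDimensional E V] [FiniteDimensional E W] {F : End E V}
    {G : End E W} {q : E} (hq : q ≠ 0) (B : V →ₗ[E] W →ₗ[E] E)
    (hBl : ∀ x, (∀ y, B x y = 0) → x = 0) (hBr : ∀ y, (∀ x, B x y = 0) → y = 0)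
    (hFG : ∀ x y, B (F x) (G y) = q * B x y) {c : E} {k : ℕ} (hk : 2 ≤ k) (h : Crit F c k) :
    Crit (TensorProduct.map F G) q 3 := by
  obtain ⟨v, φ, h1, h2, h3⟩ := h
  obtain ⟨K, rfl⟩ : ∃ K, k = K + 2 := ⟨k - 2, by omega⟩
  have hk1 : K + 2 - 1 = K + 1 := rfl
  rw [hk1] at h3
  -- the inverse of `G`
  obtain ⟨G', hG1, hG2⟩ : ∃ G' : End E W, G * G' = 1 ∧ G' * G = 1 := by
    have h4 : IsUnit G := by
      rw [LinearMap.isUnit_iff_ker_eq_bot, LinearMap.ker_eq_bot']
      intro y hy
      refine hBr y fun x => ?_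
      have h5 := hFG x y
      rw [hy, map_zero] at h5
      exact (mul_eq_zero.1 h5.symm).resolve_left hq
    obtain ⟨u, rfl⟩ := h4
    exact ⟨_, u.mul_inv, u.inv_mul⟩
  have hGG : ∀ y, G (G' y) = y := fun y => by rw [← End.mul_apply, hG1, End.one_apply]
  have hGG' : ∀ y, G' (G y) = y := fun y => by rw [← End.mul_apply, hG2, End.one_apply]
  -- the adjoint
  set N : End E V := F - c • 1 with hN
  set N' : End E W := q • G' - c • 1 with hN'
  have hadj : ∀ x y, B (N x) y = B x (N' y) := by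
    intro x y
    rw [hN, hN', LinearMap.sub_apply, LinearMap.sub_apply, LinearMap.smul_apply,
      LinearMap.smul_apply, LinearMap.smul_apply, End.one_apply, End.one_apply, map_sub, map_sub,
      map_smul, map_smul, map_smul, LinearMap.sub_apply, LinearMap.smul_apply, smul_eq_mul,
      smul_eq_mul, ← hFG, hGG]
  -- the vector which gives the functional
  obtain ⟨w, hw⟩ : ∃ w, ∀ x, B x w = φ x := by
    have h4 : finrank E V ≤ finrank E W := by
      have h5 := LinearMap.finrank_le_finrank_of_injective (f := B) (by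
        rw [← LinearMap.ker_eq_bot, LinearMap.ker_eq_bot']
        intro x hx
        exact hBl x fun y => by rw [hx, LinearMap.zero_apply])
      rwa [Subspace.dual_finrank_eq] at h5
    have hinj : Function.Injective B.flip := by
      rw [← LinearMap.ker_eq_bot, LinearMap.ker_eq_bot']
      intro y hy
      exact hBr y fun x => by rw [← LinearMap.flip_apply, hy, LinearMap.zero_apply]
    have h5 : finrank E W ≤ finrank E V := by
      have h6 := LinearMap.finrank_le_finrank_of_injective hinj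
      rwa [Subspace.dual_finrank_eq] at h6
    have h6 : finrank E W = finrank E (Dual E V) := by
      rw [Subspace.dual_finrank_eq]
      omega
    obtain ⟨w, hw⟩ := (LinearMap.injective_iff_surjective_of_finrank_eq_finrank h6).1 hinj φ
    exact ⟨w, fun x => by rw [← hw, LinearMap.flip_apply]⟩
  -- the operator
  set D : End E (V ⊗[E] W) := TensorProduct.map F 1 - q • TensorProduct.map 1 G' with hDdef
  have hD : ∀ x y, D (x ⊗ₜ y) = (N x) ⊗ₜ y - x ⊗ₜ (N' y) := by
    intro x y
    rw [hDdef, LinearMap.sub_apply, LinearMap.smul_apply, TensorProduct.map_tmul,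
      TensorProduct.map_tmul, hN, hN', LinearMap.sub_apply, LinearMap.sub_apply,
      LinearMap.smul_apply, LinearMap.smul_apply, LinearMap.smul_apply, End.one_apply,
      End.one_apply, TensorProduct.sub_tmul, TensorProduct.tmul_sub,
      TensorProduct.tmul_smul, TensorProduct.tmul_smul, ← TensorProduct.smul_tmul']
    abel
  obtain ⟨f, Φ, g1, g2, g3⟩ := crit_three B hadj hBr K v w h1 (fun u => by rw [hw]; exact h2 u)
    (by rw [hw]; exact h3) D hD
  set L : End E (V ⊗[E] W) := TensorProduct.map 1 G with hL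
  set L' : End E (V ⊗[E] W) := TensorProduct.map 1 G' with hL'
  have hLL : L * L' = 1 := by
    rw [hL, hL', ← TensorProduct.map_mul, hG1, one_mul]
    exact TensorProduct.map_one
  have hDL : Commute D L := by
    rw [hDdef]
    refine Commute.sub_left ?_ (Commute.smul_left ?_ q)
    · change TensorProduct.map F 1 * TensorProduct.map 1 G =
        TensorProduct.map 1 G * TensorProduct.map F 1
      rw [← TensorProduct.map_mul, ← TensorProduct.map_mul, one_mul, mul_one, one_mul, mul_one]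
    · change TensorProduct.map 1 G' * TensorProduct.map 1 G =
        TensorProduct.map 1 G * TensorProduct.map 1 G'
      rw [← TensorProduct.map_mul, ← TensorProduct.map_mul, hG1, hG2]
  have hT : TensorProduct.map F G - q • (1 : End E (V ⊗[E] W)) = D * L := by
    refine TensorProduct.ext' fun x y => ?_
    rw [LinearMap.sub_apply, LinearMap.smul_apply, End.one_apply, End.mul_apply, hL,
      TensorProduct.map_tmul, TensorProduct.map_tmul, hDdef, LinearMap.sub_apply,
      LinearMap.smul_apply, TensorProduct.map_tmul, TensorProduct.map_tmul, End.one_apply,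
      End.one_apply, End.one_apply, hGG']
  have hTn : ∀ n : ℕ, (TensorProduct.map F G - q • (1 : End E (V ⊗[E] W))) ^ n =
      D ^ n * L ^ n := fun n => by rw [hT, hDL.mul_pow]
  have hLn : ∀ n : ℕ, L ^ n * L' ^ n = 1 := by
    intro n
    have hc : Commute L L' := by
      have : L' * L = 1 := by
        rw [hL, hL', ← TensorProduct.map_mul, hG2, one_mul]
        exact TensorProduct.map_one
      change L * L' = L' * L
      rw [hLL, this]
    rw [← hc.mul_pow, hLL, one_pow]
  refine ⟨(L' ^ 2) f, Φ, ?_, fun u => ?_, ?_⟩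
  · have h4 : (TensorProduct.map F G - q • (1 : End E (V ⊗[E] W))) ^ 3 * L' ^ 2 =
        L * D ^ 3 := by
      rw [hTn, pow_succ' L 2, mul_assoc, mul_assoc, hLn, mul_one, (hDL.pow_left 3).eq]
    rw [← End.mul_apply, h4, End.mul_apply, g1, map_zero]
  · rw [hTn, End.mul_apply]
    exact g2 _
  · have h4 : (TensorProduct.map F G - q • (1 : End E (V ⊗[E] W))) ^ (3 - 1) * L' ^ 2 =
        D ^ 2 := by
      rw [hTn, mul_assoc, hLn, mul_one]
    rw [← End.mul_apply, h4]
    exact g3

end Pool.Agent.Helper17.JB
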